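import Pool.Agent.J4.H82.PV.R

/-!
# The conjecture of Beilinson and Bloch for exterior products of divisors: Prym varieties

We extend the theorem RankBound of a teammate on exterior products `a₁ × … × aₙ` of divisors on
products of curves (for `n ≥ 2` they are homologically trivial zero-cycles over number fields with
trivial images in the product of the Jacobians, the Albanese variety, so that they are torsion
according to Q1) by new bounds for divisors in parts of the Jacobian for the action of finite groups.

Let `C` be a curve over an algebraically closed field `k` of characteristic zero, for instance the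
field of the algebraic numbers, and let `b_1, …, b_s` be divisors of degree zero on `C`. Let
`C_1, …, C_n` be curves and `a_i` a divisor on `C_i` with a positive multiple in the group generated
by the principal divisors and by the images `f_* b_j` under all morphisms `f : C → C_i`. If
`n > ∑ ν_j` then `a_1 × … × a_n` is a torsion element of the Chow group of zero-cycles of
`C_1 × … × C_n`. Here `ν_j` is a bound as in RankBound (the genus of `C` for an arbitrary divisor
`b_j`), or the following new bound. Let a finite group `H` act on `C`, let `χ` be a homomorphism from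
`H` to `{1, -1}`, and assume that a positive multiple of `b_j` is linearly equivalent to
`∑ χ(h) h(D)` for a divisor `D`, for example that `h(b_j) - χ(h) b_j` is a torsion class for
all `h` in `H` (and the degree of `D` is zero if `χ = 1`). Then `ν_j` is

* the genus of `C/H` if `χ = 1`;
* the difference `g(C/ker χ) - g(C/H)`, the dimension of the Prym variety of the double cover
  `C/ker χ → C/H`, if `χ ≠ 1` and if the double cover has branch points (an element `h` with
  `χ(h) = -1` has a fixed point on `C`) or `C/H` is rational, of genus one or hyperelliptic, or if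
  the difference is zero;
* the genus of `C/ker χ` if `χ ≠ 1`, in general.

Examples. (1) Let an elementary abelian `2`-group `G` act on the curve `C` over the number field `F`,
such that the double covers `C/ker χ → C/G` have branch points, and let `P_χ` be the Prym varieties,
of dimension `p_χ` (`P_1` is the Jacobian of `C/G`). Then the exterior products of `n` divisors of
degree zero on `C`, defined over `F`, are torsion in `CH_0(C ^ n)` if
`n > ∑ p_χ rk P_χ(F)`, instead of `n > g rk J(F) = ∑ p_χ ∑ rk P_χ(F)` by RankBound. (2) If all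
`P_χ` are elliptic curves or zero, as for the curves of genus two or three with completely
decomposable Jacobians of this kind, the condition is `n > rk J(F)`. (3) Let `C = X₀(N)` with `N`
prime, `J⁺` and `J⁻` the parts of the Jacobian for the involution `w` (which has fixed points) and
suppose that `J⁻(ℚ)` is finite. Then the condition for rational divisors is `n > g⁺ rk J⁺(ℚ)` with
the genus `g⁺` of `X₀(N)/w`.

The bounds for `χ ≠ 1` come from the vanishing theorem that the symmetrization of
`(x₀ - τ x₀) × ... × (x_p - τ x_p)` is torsion, `p` the dimension of the Prym variety of a double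
cover `C → D` with involution `τ`; see the file PrymQuotients for MP_83b46e_ag for the proof.
-/

set_option autoImplicit false

open FF IntermediateField

namespace Pool.Agent.Results.MP_e28333_ag.PrymRankBound

open Pool.Agent.J4.H17.ZC Pool.Agent.J4.H27.BB Pool.Agent.J4.H82.PV

section defs

variable {k : Type} [Field k] {K : Type} [Field K] [Algebra k K] {H : Type} [Group H]

/-- The sum of the divisors `χ(h) h(D)` for the elements `h` of the finite group `H`, which acts on
the curve by `β`. -/
noncomputable def twist [Fintype H] (β : H →* (K ≃ₐ[k] K)) (χ : H →* ℤˣ) (D : Place k K →₀ ℤ) :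
    Place k K →₀ ℤ :=
  ∑ h : H, ((χ h : ℤˣ) : ℤ) • Finsupp.mapDomain (act (β h)) D

/-- The curve with function field `L` has a function of degree two: it is a rational curve, a curve of
genus one or a hyperelliptic curve. -/
def DegreeTwo (k L : Type) [Field k] [Field L] [Algebra k L] : Prop :=
  ∃ t : L, Transcendental k t ∧ Module.finrank k⟮t⟯ L = 2

/-- The number `ν` for a nontrivial character `χ`: the genus of `C/ker χ`, or the difference of the
genera of `C/ker χ` and `C/H`, the dimension of the Prym variety of this double cover, if the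
difference is zero or the double cover has branch points or `C/H` has a function of degree two. -/
def CharBound (β : H →* (K ≃ₐ[k] K)) (χ : H →* ℤˣ) (ν : ℕ) : Prop :=
  HasGenus k (fixedField (χ.ker.map β)) ν ∨
  ∃ g, HasGenus k (fixedField β.range) g ∧ HasGenus k (fixedField (χ.ker.map β)) (g + ν) ∧
    (ν = 0 ∨ (∃ (h : H) (P : Place k K), χ h = -1 ∧ act (β h) P = P) ∨
      DegreeTwo k (fixedField β.range))

/-- `ν + 1` is a bound for the order of nilpotency of the divisor `b`: a positive multiple of `b` is
linearly equivalent to the sum of the divisors `χ(h) h(D)`, for a divisor `D`, which has degree zero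
if `χ = 1`, and `ν` is the genus of `C/H` if `χ = 1`, or a bound `CharBound` otherwise. -/
def PrymBound (k : Type) [Field k] [CharZero k] (K : Type) [Field K] [Algebra k K] [IsFF k K]
    (b : Place k K →₀ ℤ) (ν : ℕ) : Prop :=
  ∃ (H : Type) (_ : Group H) (_ : Fintype H) (β : H →* (K ≃ₐ[k] K)) (χ : H →* ℤˣ)
    (D : Place k K →₀ ℤ) (N : ℕ), 0 < N ∧ Principal k K (N • b - twist β χ D) ∧
    ((χ = 1 ∧ D.sum (fun _ m => m) = 0 ∧ HasGenus k (fixedField β.range) ν) ∨
      (χ ≠ 1 ∧ CharBound β χ ν))

end defs

section proofs

variable {k : Type} [Field k] [CharZero k] [IsAlgClosed k] {K : Type} [Field K] [Algebra k K]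
  [IsFF k K]

omit [CharZero k] [IsAlgClosed k] [IsFF k K] in
theorem twist_eq {H : Type} [Group H] [Fintype H] (β : H →* (K ≃ₐ[k] K)) (χ : H →* ℤˣ)
    (D : Place k K →₀ ℤ) : twist β χ D = Finsupp.linearCombination ℤ (ex β χ) D := by
  induction D using Finsupp.induction_linear with
  | zero =>
    unfold twist
    simp
  | add u v hu hv =>
    rw [map_add, ← hu, ← hv]
    unfold twist
    rw [← Finset.sum_add_distrib]
    refine Finset.sum_congr rfl fun h _ => ?_
    rw [Finsupp.mapDomain_add, smul_add]
  | single P c =>
    rw [Finsupp.linearCombination_single]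
    unfold twist ex
    rw [Finset.smul_sum]
    refine Finset.sum_congr rfl fun h _ => ?_
    rw [Finsupp.mapDomain_single, smul_comm, Finsupp.smul_single c, smul_eq_mul, mul_one]

omit [CharZero k] [IsAlgClosed k] [IsFF k K] in
theorem dg_map (f : Place k K → Place k K) (D : Place k K →₀ ℤ) :
    dg (Finsupp.mapDomain f D) = dg D := by
  induction D using Finsupp.induction_linear with
  | zero => simp
  | add u v hu hv => rw [Finsupp.mapDomain_add, map_add, hu, hv, map_add]
  | single x c => rw [Finsupp.mapDomain_single, dg_single, dg_single]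

omit [CharZero k] [IsAlgClosed k] [IsFF k K] in
theorem dg_twist {H : Type} [Group H] [Fintype H] (β : H →* (K ≃ₐ[k] K)) (χ : H →* ℤˣ)
    (D : Place k K →₀ ℤ) (h : χ ≠ 1 ∨ dg D = 0) : dg (twist β χ D) = 0 := by
  classical
  have h1 : dg (twist β χ D) = (∑ h : H, ((χ h : ℤˣ) : ℤ)) * dg D := by
    unfold twist
    rw [map_sum, Finset.sum_mul]
    refine Finset.sum_congr rfl fun h _ => ?_
    rw [map_zsmul, dg_map, smul_eq_mul]
  rw [h1]
  rcases h with h | h
  · obtain ⟨h0, hh0⟩ := exists_neg h
    have h2 : ∑ h : H, ((χ h : ℤˣ) : ℤ) = -∑ h : H, ((χ h : ℤˣ) : ℤ) := by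
      rw [← Finset.sum_neg_distrib]
      refine Fintype.sum_equiv (Equiv.mulLeft h0) _ _ fun x => ?_
      rw [Equiv.coe_mulLeft, map_mul, hh0]
      simp
    have h3 : ∑ h : H, ((χ h : ℤˣ) : ℤ) = 0 := by omega
    rw [h3, zero_mul]
  · rw [h, mul_zero]

theorem bound_dg {b : Place k K →₀ ℤ} {ν : ℕ} (hb : PrymBound k K b ν) : dg b = 0 := by
  obtain ⟨H, _, _, β, χ, D, N, hN, ⟨f, hf, hdiv⟩, h⟩ := hb
  have h1 : dg (twist β χ D) = 0 := by
    refine dg_twist β χ D ?_
    rcases h with ⟨-, h2, -⟩ | ⟨h2, -⟩
    · right
      rw [dg_eq_sum]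
      exact h2
    · exact Or.inl h2
  have h2 : dg (N • b - twist β χ D) = 0 := by
    rw [hdiv]
    exact dg_divisor f
  rw [map_sub, h1, sub_zero, map_nsmul] at h2
  rcases smul_eq_zero.1 h2 with h3 | h3
  · omega
  · exact h3

/-- the vanishing for the bound -/
theorem bound_van {b : Place k K →₀ ℤ} {ν : ℕ} (hb : PrymBound k K b ν) :
    ∃ (e : Place k K → (Place k K →₀ ℤ)) (D : Place k K →₀ ℤ) (N : ℕ), Van k e ν ∧ 0 < N ∧
      Principal k K (N • b - Finsupp.linearCombination ℤ e D) := by
  classical
  obtain ⟨H, _, _, β, χ, D, N, hN, hp, h⟩ := hb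
  have h5 : Fintype χ.ker := Fintype.ofFinite _
  have hr2 : (β.comp χ.ker.subtype).range = χ.ker.map β := by
    rw [MonoidHom.range_comp, Subgroup.range_subtype]
  rw [twist_eq] at hp
  rcases h with ⟨h1, h2, h3⟩ | ⟨h1, h2 | ⟨g, h2, h3, h4⟩⟩
  · subst h1
    obtain ⟨o, -⟩ := exists_place (k := k) (K := K)
    refine ⟨fun P => ex β 1 P - ex β 1 o, D, N, van_one β h3 o, hN, ?_⟩
    have h6 : Finsupp.linearCombination ℤ (fun P => ex β 1 P - ex β 1 o) D =
        Finsupp.linearCombination ℤ (ex β 1) D := by
      have h7 : ∀ E : Place k K →₀ ℤ,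
          Finsupp.linearCombination ℤ (fun P => ex β 1 P - ex β 1 o) E =
          Finsupp.linearCombination ℤ (ex β 1) E - dg E • ex β 1 o := by
        intro E
        induction E using Finsupp.induction_linear with
        | zero => simp
        | add u v hu hv =>
          rw [map_add, hu, hv, map_add, map_add, add_smul]
          abel
        | single P c =>
          rw [Finsupp.linearCombination_single, Finsupp.linearCombination_single, dg_single,
            smul_sub]
      rw [h7, dg_eq_sum, h2, zero_smul, sub_zero]
    rw [h6]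
    exact hp
  · exact ⟨ex β χ, D, N, van_ker β χ (by rw [hr2]; exact h2) h1, hN, hp⟩
  · refine ⟨ex β χ, D, N, ?_, hN, hp⟩
    rcases h4 with h4 | ⟨h, P, hh, hP⟩ | ⟨t, ht, ht2⟩
    · subst h4
      exact van_char_zero β χ h2 (by rw [hr2]; exact h3) h1
    · exact van_char β χ h2 (by rw [hr2]; exact h3) hh hP
    · exact van_char_hyper β χ h2 (by rw [hr2]; exact h3) h1 ht ht2

end proofs

/-- The exterior product of `n > ∑ ν_j` divisors on the curves `C_i` (with function fields `K' i`),
which have positive multiples in the groups generated by the principal divisors and by the images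
of the divisors `b j` on the curve `C` (with function field `K`), is in the kernel of the Albanese
map (its images in all the curves `C_i` are zero) and is a torsion element of the Chow group. -/
theorem result {k : Type} [Field k] [IsAlgClosed k] [CharZero k] (K : Type) [Field K]
    [Algebra k K] [IsFF k K] (g : ℕ) (hg : HasGenus k K g) (s : ℕ)
    (b : Fin s → Place k K →₀ ℤ) (ν : Fin s → ℕ)
    (hb : ∀ j, NilpBound k K g (b j) (ν j) ∨ PrymBound k K (b j) (ν j))
    (n : ℕ) (hn : ∑ j, ν j < n) (K' : Fin n → Type) [∀ i, Field (K' i)]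
    [∀ i, Algebra k (K' i)] [∀ i, IsFF k (K' i)] (a : ∀ i, Place k (K' i) →₀ ℤ)
    (ha : ∀ i, ∃ N : ℕ, 0 < N ∧ N • a i ∈ images k (K' i) b) :
    (2 ≤ n → ∀ i, Finsupp.mapDomain (fun x : ∀ i, Place k (K' i) => x i) (prodCycle a) = 0) ∧
    ∃ N : ℕ, 0 < N ∧ N • prodCycle a ∈ RatEq (varPi fun i => curve k (K' i)) := by
  classical
  have h0 : ∀ j, dg (b j) = 0 := by
    intro j
    rcases hb j with (⟨h5, -⟩ | ⟨q, o, E, N, h5, -⟩) | h5
    · rw [dg_eq_sum, h5]
    · rw [h5, map_sub, dg_single, dg_single, sub_self]
    · exact bound_dg h5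
  refine reduce b h0 (fun l hl j => ?_) K' a ha
  obtain ⟨j0, T, hT, hjT⟩ := pigeon ν hn j
  rcases hb j0 with (⟨-, h5⟩ | ⟨q, o, E, N, h5, hE, hEd, hN, h, hh, hdiv⟩) | h5
  · refine case_genus hg hl T (by rw [hT, h5]) _ ?_ fun i => h0 (j i)
    intro i hi i' hi'
    rw [hjT i hi, hjT i' hi']
  · refine case_point hl T hT q o E hE (by rw [dg_eq_sum, hEd]) hN hh hdiv _ ?_
      fun i => h0 (j i)
    intro i hi
    rw [hjT i hi, h5]
  · obtain ⟨e, D, N, hv, hN, hp⟩ := bound_van h5
    exact case_van hv hl T hT (b j0) D hN hp _ fun i hi => by rw [hjT i hi]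

end Pool.Agent.Results.MP_e28333_ag.PrymRankBound
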